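import Pool.Agent.Helper72.CO.Defs

/-!
# A global holomorphic root near a compact set (helper21, for helper72)
-/

set_option autoImplicit false

open Set Filter Topology

namespace Pool.Agent.Helper21.CO

/-- the derivative of `(z, w) ↦ (z, F (z, w))` is invertible where `F_w ≠ 0` -/
theorem strict {F : ℂ × ℂ → ℂ} (hF : ContDiff ℂ 1 F) (p : ℂ × ℂ) (hp : fderiv ℂ F p (0, 1) ≠ 0) :
    ∃ e : (ℂ × ℂ) ≃L[ℂ] (ℂ × ℂ),
      HasStrictFDerivAt (fun q : ℂ × ℂ => (q.1, F q)) (e : (ℂ × ℂ) →L[ℂ] (ℂ × ℂ)) p := by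
  set D := fderiv ℂ F p with hD
  set m := D (0, 1) with hm
  have hsplit : ∀ q : ℂ × ℂ, D q = D (q.1, 0) + q.2 * m := by
    intro q
    have h1 : q = (q.1, 0) + q.2 • ((0 : ℂ), (1 : ℂ)) := by ext <;> simp
    conv_lhs => rw [h1, map_add, map_smul]
    rw [smul_eq_mul, hm]
  let f1 : (ℂ × ℂ) →L[ℂ] (ℂ × ℂ) := (ContinuousLinearMap.fst ℂ ℂ ℂ).prod D
  let f2 : (ℂ × ℂ) →L[ℂ] (ℂ × ℂ) := (ContinuousLinearMap.fst ℂ ℂ ℂ).prod
    (m⁻¹ • (ContinuousLinearMap.snd ℂ ℂ ℂ - D.comp ((ContinuousLinearMap.inl ℂ ℂ ℂ).comp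
      (ContinuousLinearMap.fst ℂ ℂ ℂ))))
  refine ⟨ContinuousLinearEquiv.equivOfInverse f1 f2 ?_ ?_, ?_⟩
  · intro q
    ext
    · simp [f1, f2]
    · simp only [f1, f2, ContinuousLinearMap.prod_apply, ContinuousLinearMap.coe_fst',
        smul_apply, sub_apply, ContinuousLinearMap.coe_snd',
        ContinuousLinearMap.comp_apply, ContinuousLinearMap.inl_apply, smul_eq_mul]
      rw [hsplit q]
      field_simp
      ring
  · intro q
    ext
    · simp [f1, f2]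
    · simp only [f1, f2, ContinuousLinearMap.prod_apply, ContinuousLinearMap.coe_fst',
        smul_apply, sub_apply, ContinuousLinearMap.coe_snd',
        ContinuousLinearMap.comp_apply, ContinuousLinearMap.inl_apply, smul_eq_mul]
      rw [hsplit]
      simp only
      field_simp
      ring
  · have h1 : HasStrictFDerivAt F D p := (hF.contDiffAt).hasStrictFDerivAt (by norm_num)
    have h2 : HasStrictFDerivAt (fun q : ℂ × ℂ => q.1) (ContinuousLinearMap.fst ℂ ℂ ℂ) p :=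
      hasStrictFDerivAt_fst
    exact h2.prodMk h1

/-- the local root -/
theorem localRoot {F : ℂ × ℂ → ℂ} (hF : ContDiff ℂ 1 F) (p : ℂ × ℂ) (hp : fderiv ℂ F p (0, 1) ≠ 0)
    (h0 : F p = 0) : ∃ φ : ℂ → ℂ, DifferentiableAt ℂ φ p.1 ∧ φ p.1 = p.2 ∧
      ∀ᶠ z in 𝓝 p.1, F (z, φ z) = 0 := by
  obtain ⟨e, he⟩ := strict hF p hp
  set g := he.localInverse (fun q : ℂ × ℂ => (q.1, F q)) e p with hg
  have hpt : ((fun q : ℂ × ℂ => (q.1, F q)) p) = (p.1, 0) := by simp [h0]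
  have hg1 : g (p.1, 0) = p := by
    rw [hg, ← hpt]; exact he.localInverse_apply_image
  have hgd : DifferentiableAt ℂ g (p.1, 0) := by
    have := he.to_localInverse.hasFDerivAt.differentiableAt
    simp only [h0] at this
    exact this
  have hincl : DifferentiableAt ℂ (fun z : ℂ => (z, (0 : ℂ))) p.1 :=
    differentiableAt_id.prodMk (differentiableAt_const _)
  refine ⟨fun z => (g (z, 0)).2, ?_, by simp [hg1], ?_⟩
  · have h1 : DifferentiableAt ℂ (fun z : ℂ => g (z, 0)) p.1 := DifferentiableAt.comp p.1 hgd hincl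
    exact h1.snd
  · have h1 := he.eventually_right_inverse
    simp only [h0] at h1
    have h2 : Tendsto (fun z : ℂ => (z, (0 : ℂ))) (𝓝 p.1) (𝓝 (p.1, 0)) := hincl.continuousAt
    filter_upwards [h2.eventually h1] with z hz
    have e1 : (g (z, 0)).1 = z := (Prod.ext_iff.1 hz).1
    have e2 : F (g (z, 0)) = 0 := (Prod.ext_iff.1 hz).2
    have e3 : g (z, 0) = (z, (g (z, 0)).2) := Prod.ext e1 rfl
    rw [← e3]
    exact e2

theorem globalRoot {F : ℂ × ℂ → ℂ} (hF : ContDiff ℂ 1 F) (Γ : Set ℂ) (hΓ : IsCompact Γ) (σ : ℂ → ℂ)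
    (hσ : Continuous σ) (h0 : ∀ z ∈ Γ, F (z, σ z) = 0)
    (h1 : ∀ z ∈ Γ, fderiv ℂ F (z, σ z) (0, 1) ≠ 0) :
    ∃ (N : Set ℂ) (S : ℂ → ℂ), IsOpen N ∧ Γ ⊆ N ∧ DifferentiableOn ℂ S N ∧
      (∀ z ∈ N, F (z, S z) = 0) ∧ ∀ z ∈ Γ, S z = σ z := by
  classical
  set Φ : ℂ × ℂ → ℂ × ℂ := fun q => (q.1, F q) with hΦ
  have hΦc : Continuous Φ := continuous_fst.prodMk hF.continuous
  set G : Set (ℂ × ℂ) := (fun z => (z, σ z)) '' Γ with hG
  have hGc : IsCompact G := hΓ.image (continuous_id.prodMk hσ)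
  have hinj : InjOn Φ G := by
    rintro _ ⟨z, _, rfl⟩ _ ⟨z', _, rfl⟩ h
    have : z = z' := (Prod.ext_iff.1 h).1
    rw [this]
  obtain ⟨t, ht, htinj⟩ := hinj.exists_mem_nhdsSet hGc (fun x _ => hΦc.continuousAt) (by
    rintro _ ⟨z, hz, rfl⟩
    obtain ⟨e, he⟩ := strict hF (z, σ z) (h1 z hz)
    refine ⟨(he.toOpenPartialHomeomorph Φ).source,
      (he.toOpenPartialHomeomorph Φ).open_source.mem_nhds he.mem_toOpenPartialHomeomorph_source, ?_⟩
    have := (he.toOpenPartialHomeomorph Φ).injOn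
    rwa [he.toOpenPartialHomeomorph_coe] at this)
  set T := interior t with hT
  have hTinj : InjOn Φ T := htinj.mono interior_subset
  have hGT : G ⊆ T := subset_interior_iff_mem_nhdsSet.2 ht
  have hTo : IsOpen T := isOpen_interior
  -- uniqueness
  have huniq : ∀ z w w', (z, w) ∈ T → (z, w') ∈ T → F (z, w) = 0 → F (z, w') = 0 → w = w' := by
    intro z w w' hw hw' e e'
    have : Φ (z, w) = Φ (z, w') := by simp [hΦ, e, e']
    exact (Prod.ext_iff.1 (hTinj hw hw' this)).2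
  set N : Set ℂ := {z | ∃ w, (z, w) ∈ T ∧ F (z, w) = 0 ∧ fderiv ℂ F (z, w) (0, 1) ≠ 0} with hN
  have hfc : Continuous fun q => fderiv ℂ F q (0, 1) :=
    (hF.continuous_fderiv (by norm_num)).clm_apply continuous_const
  set S : ℂ → ℂ := fun z => if h : ∃ w, (z, w) ∈ T ∧ F (z, w) = 0 ∧ fderiv ℂ F (z, w) (0, 1) ≠ 0
    then h.choose else 0 with hS
  have hSspec : ∀ z ∈ N, (z, S z) ∈ T ∧ F (z, S z) = 0 ∧ fderiv ℂ F (z, S z) (0, 1) ≠ 0 := by
    intro z hz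
    have hz' : ∃ w, (z, w) ∈ T ∧ F (z, w) = 0 ∧ fderiv ℂ F (z, w) (0, 1) ≠ 0 := hz
    simp only [hS, dif_pos hz']
    exact hz'.choose_spec
  -- near a point of `N`
  have hloc : ∀ z ∈ N, ∃ φ : ℂ → ℂ, DifferentiableAt ℂ φ z ∧ ∀ᶠ z' in 𝓝 z, z' ∈ N ∧ S z' = φ z' := by
    intro z hz
    obtain ⟨e1, e2, e3⟩ := hSspec z hz
    obtain ⟨φ, q1, q2, q3⟩ := localRoot hF (z, S z) e3 e2
    simp only at q1 q2 q3
    refine ⟨φ, q1, ?_⟩
    have hc : ContinuousAt (fun z' => (z', φ z')) z := continuousAt_id.prodMk q1.continuousAt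
    have m1 : ∀ᶠ z' in 𝓝 z, (z', φ z') ∈ T := by
      refine hc.eventually_mem (hTo.mem_nhds ?_)
      show (z, φ z) ∈ T
      rw [q2]; exact e1
    have m2 : ∀ᶠ z' in 𝓝 z, fderiv ℂ F (z', φ z') (0, 1) ≠ 0 := by
      have hc2 : ContinuousAt (fun z' => fderiv ℂ F (z', φ z') (0, 1)) z :=
        ContinuousAt.comp (g := fun q => fderiv ℂ F q (0, 1)) hfc.continuousAt hc
      refine hc2.eventually_ne ?_
      rw [q2]; exact e3
    filter_upwards [m1, m2, q3] with z' n1 n2 n3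
    have hz' : z' ∈ N := ⟨φ z', n1, n3, n2⟩
    obtain ⟨r1, r2, _⟩ := hSspec z' hz'
    exact ⟨hz', huniq z' _ _ r1 n1 r2 n3⟩
  refine ⟨N, S, ?_, ?_, ?_, fun z hz => (hSspec z hz).2.1, ?_⟩
  · rw [isOpen_iff_mem_nhds]
    intro z hz
    obtain ⟨φ, _, h⟩ := hloc z hz
    exact h.mono fun _ h => h.1
  · intro z hz
    exact ⟨σ z, hGT ⟨z, hz, rfl⟩, h0 z hz, h1 z hz⟩
  · intro z hz
    obtain ⟨φ, hφ, h⟩ := hloc z hz
    have : S =ᶠ[𝓝 z] φ := h.mono fun _ h => h.2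
    exact (hφ.congr_of_eventuallyEq this).differentiableWithinAt
  · intro z hz
    have hzN : z ∈ N := ⟨σ z, hGT ⟨z, hz, rfl⟩, h0 z hz, h1 z hz⟩
    obtain ⟨r1, r2, _⟩ := hSspec z hzN
    exact huniq z _ _ r1 (hGT ⟨z, hz, rfl⟩) r2 (h0 z hz)

open Polynomial in
theorem root : Pool.Agent.Helper72.CO.S_ROOT := by
  intro a b c d Γ hΓ h0 h1
  set F : ℂ × ℂ → ℂ := fun q => a * q.2 ^ 3 + b.eval q.1 * q.2 ^ 2 + c.eval q.1 * q.2 + d.eval q.1
    with hFdef
  have hpoly : ∀ p : ℂ[X], ContDiff ℂ 1 fun q : ℂ × ℂ => p.eval q.1 := by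
    intro p
    have h : ContDiff ℂ 1 fun z : ℂ => p.eval z := by
      have := p.contDiff_aeval (𝕜 := ℂ) (n := 1)
      simpa [Polynomial.coe_aeval_eq_eval] using this
    exact h.comp contDiff_fst
  have hF : ContDiff ℂ 1 F := by
    have h2 : ContDiff ℂ 1 fun q : ℂ × ℂ => q.2 := contDiff_snd
    exact (((contDiff_const.mul (h2.pow 3)).add ((hpoly b).mul (h2.pow 2))).add ((hpoly c).mul h2)).add
      (hpoly d)
  have hder : ∀ z w : ℂ, fderiv ℂ F (z, w) (0, 1) = 3 * a * w ^ 2 + 2 * b.eval z * w + c.eval z := by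
    intro z w
    have e1 : HasFDerivAt F (fderiv ℂ F (z, w)) (z, w) :=
      (hF.differentiable (by norm_num) (z, w)).hasFDerivAt
    have e2 : HasDerivAt (fun w : ℂ => (z, w)) ((0 : ℂ), (1 : ℂ)) w :=
      (hasDerivAt_const w z).prodMk (hasDerivAt_id w)
    have e3 : HasDerivAt (fun w : ℂ => F (z, w)) (fderiv ℂ F (z, w) (0, 1)) w :=
      HasFDerivAt.comp_hasDerivAt w e1 e2
    have e4 : HasDerivAt (fun w : ℂ => F (z, w)) (a * (3 * w ^ 2) + b.eval z * (2 * w) + c.eval z) w := by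
      have p3 : HasDerivAt (fun w : ℂ => a * w ^ 3) (a * (3 * w ^ 2)) w := by
        simpa using (hasDerivAt_pow 3 w).const_mul a
      have p2 : HasDerivAt (fun w : ℂ => b.eval z * w ^ 2) (b.eval z * (2 * w)) w := by
        simpa using (hasDerivAt_pow 2 w).const_mul (b.eval z)
      have p1 : HasDerivAt (fun w : ℂ => c.eval z * w) (c.eval z) w := by
        simpa using (hasDerivAt_id w).const_mul (c.eval z)
      exact ((p3.add p2).add p1).add_const (d.eval z)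
    rw [e3.unique e4]
    ring
  obtain ⟨N, S, hN, hΓN, hS, hroot, hconj⟩ := globalRoot hF Γ hΓ (starRingEnd ℂ)
    Complex.continuous_conj (fun z hz => h0 z hz) (fun z hz => by rw [hder]; exact h1 z hz)
  exact ⟨N, S, hN, hΓN, hS, fun z hz => hroot z hz, hconj⟩

end Pool.Agent.Helper21.CO
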